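import Pool.Agent.Q15.PA.Stm

/-!
Project PA (helper15), job CL: closure properties of rational exponential functions.
-/

set_option autoImplicit false

namespace Pool.Agent.Q121.PA

open Pool.Agent.Q15.PA MvPolynomial

theorem ev_add {n : ℕ} (p q : V n →₀ MvPolynomial (Fin n) ℝ) (ξ : V n) :
    ev (p + q) ξ = ev p ξ + ev q ξ := by
  unfold ev
  rw [Finsupp.sum_add_index']
  · intro v
    simp
  · intro v a b
    rw [map_add, add_mul]

/-- multiplication of all coefficients by a polynomial -/
noncomputable def mulc {n : ℕ} (r : MvPolynomial (Fin n) ℝ) (p : V n →₀ MvPolynomial (Fin n) ℝ) :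
    V n →₀ MvPolynomial (Fin n) ℝ := p.mapRange (fun x => r * x) (mul_zero r)

theorem ev_mulc {n : ℕ} (r : MvPolynomial (Fin n) ℝ) (p : V n →₀ MvPolynomial (Fin n) ℝ) (ξ : V n) :
    ev (mulc r p) ξ = eval ξ r * ev p ξ := by
  unfold ev mulc
  rw [Finsupp.sum_mapRange_index]
  · unfold Finsupp.sum
    rw [Finset.mul_sum]
    refine Finset.sum_congr rfl (fun v _ => ?_)
    show eval ξ (r * p v) * Real.exp (v ⬝ᵥ ξ) = eval ξ r * (eval ξ (p v) * Real.exp (v ⬝ᵥ ξ))
    rw [map_mul, mul_assoc]
  · intro v
    simp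

/-- shift of the exponents -/
noncomputable def shf {n : ℕ} (w : V n) (p : V n →₀ MvPolynomial (Fin n) ℝ) :
    V n →₀ MvPolynomial (Fin n) ℝ := p.mapDomain (fun v => w + v)

theorem shf_apply {n : ℕ} (w : V n) (p : V n →₀ MvPolynomial (Fin n) ℝ) (v : V n) :
    shf w p v = p (v - w) := by
  unfold shf
  have h : v = (fun v => w + v) (v - w) := by simp
  nth_rewrite 1 [h]
  rw [Finsupp.mapDomain_apply (add_right_injective w)]

theorem ev_shf {n : ℕ} (w : V n) (p : V n →₀ MvPolynomial (Fin n) ℝ) (ξ : V n) :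
    ev (shf w p) ξ = Real.exp (w ⬝ᵥ ξ) * ev p ξ := by
  unfold ev shf
  rw [Finsupp.sum_mapDomain_index]
  · unfold Finsupp.sum
    rw [Finset.mul_sum]
    refine Finset.sum_congr rfl (fun v _ => ?_)
    show eval ξ (p v) * Real.exp ((w + v) ⬝ᵥ ξ) =
      Real.exp (w ⬝ᵥ ξ) * (eval ξ (p v) * Real.exp (v ⬝ᵥ ξ))
    rw [add_dotProduct, Real.exp_add]
    ring
  · intro v
    simp
  · intro v a b
    rw [map_add, add_mul]

theorem t_CL : S_CL := by
  intro n k
  refine ⟨?_, ?_, ?_, ?_, ?_⟩
  · refine ⟨[], 0, Finsupp.single 0 1, by simp, by simp, ?_, ?_⟩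
    · intro v
      classical
      rw [Finsupp.single_apply]
      split_ifs
      · exact isHomogeneous_one _ _
      · exact isHomogeneous_zero _ _ _
    · intro ξ
      simp [prodL, ev]
  · intro hk
    rcases Nat.eq_zero_or_pos k with h0 | h0
    · subst h0
      exact ⟨[], 0, 0, by simp, by simp, fun v => isHomogeneous_zero _ _ _, by intro ξ; simp [ev]⟩
    · have hn : 0 < n := by omega
      refine ⟨List.replicate k (fun _ => 1), 0, 0, ?_, by simp, fun v => isHomogeneous_zero _ _ _,
        by intro ξ; simp [ev]⟩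
      intro a ha
      rw [List.eq_of_mem_replicate ha]
      intro h
      have := congrFun h ⟨0, hn⟩
      simp at this
  · rintro F F' ⟨L, j, p, h1, h2, h3, h4⟩ ⟨L', j', p', h1', h2', h3', h4'⟩
    refine ⟨L ++ L', j + j' + k, mulc ((L'.map lin).prod) p + mulc ((L.map lin).prod) p', ?_, ?_, ?_, ?_⟩
    · intro a ha
      rcases List.mem_append.1 ha with h | h
      · exact h1 a h
      · exact h1' a h
    · rw [List.length_append]
      omega
    · intro v
      rw [Finsupp.add_apply]
      apply IsHomogeneous.add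
      · have h5 := (prod_lin_hom L').mul (h3 v)
        have h6 : L'.length + j = j + j' + k := by omega
        rw [h6] at h5
        exact h5
      · have h5 := (prod_lin_hom L).mul (h3' v)
        have h6 : L.length + j' = j + j' + k := by omega
        rw [h6] at h5
        exact h5
    · intro ξ
      rw [ev_add, ev_mulc, ev_mulc, eval_prod_lin, eval_prod_lin, ← h4, ← h4']
      unfold prodL
      rw [List.map_append, List.prod_append]
      ring
  · rintro F c w ⟨L, j, p, h1, h2, h3, h4⟩
    refine ⟨L, j, shf w (mulc (C c) p), h1, h2, ?_, ?_⟩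
    · intro v
      rw [shf_apply]
      have h5 := (isHomogeneous_C (Fin n) c).mul (h3 (v - w))
      rw [zero_add] at h5
      exact h5
    · intro ξ
      rw [ev_shf, ev_mulc, eval_C, ← h4]
      ring
  · rintro F a ha ⟨L, j, p, h1, h2, h3, h4⟩
    refine ⟨a :: L, j, p, ?_, ?_, h3, ?_⟩
    · intro b hb
      rcases List.mem_cons.1 hb with h | h
      · rw [h]
        exact ha
      · exact h1 b h
    · rw [List.length_cons]
      omega
    · intro ξ
      rw [← h4]
      unfold prodL
      rw [List.map_cons, List.prod_cons]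
      ring

end Pool.Agent.Q121.PA
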