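import Pool.Agent.Q15.PA.Stm

/-!
Project PA (helper15), job FAC: a divisor of a product of linear forms is a product of linear forms.
-/

set_option autoImplicit false

namespace Pool.Agent.Q121.PA

open Pool.Agent.Q15.PA MvPolynomial

theorem fac_list {d : ℕ} (L : List (V d)) : ∀ (q m : MvPolynomial (Fin d) ℝ) (c : ℝ), c ≠ 0 →
    (∀ a ∈ L, a ≠ 0) → q * m = C c * (L.map lin).prod →
    ∃ (L' : List (V d)) (b : ℝ), b ≠ 0 ∧ (∀ a ∈ L', a ≠ 0) ∧ m = C b * (L'.map lin).prod := by
  induction L with
  | nil =>
    intro q m c hc _ h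
    rw [List.map_nil, List.prod_nil, mul_one] at h
    have hu : IsUnit m := by
      have h1 : IsUnit (q * m) := by
        rw [h]
        exact (isUnit_iff_ne_zero.2 hc).map C
      exact isUnit_of_mul_isUnit_right h1
    have h2 := (MvPolynomial.isUnit_iff_totalDegree_of_isReduced).1 hu
    have h3 := totalDegree_eq_zero_iff_eq_C.1 h2.2
    refine ⟨[], coeff 0 m, ?_, by simp, ?_⟩
    · intro h4
      rw [h4, C_0] at h3
      rw [h3] at hu
      exact not_isUnit_zero hu
    · rw [List.map_nil, List.prod_nil, mul_one]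
      exact h3
  | cons a L ih =>
    intro q m c hc hL h
    have ha : a ≠ 0 := hL a (by simp)
    have hL' : ∀ b ∈ L, b ≠ 0 := fun b hb => hL b (by simp [hb])
    rw [List.map_cons, List.prod_cons] at h
    have hp := lin_prime ha
    have hdvd : lin a ∣ q * m := by
      rw [h]
      exact ⟨C c * (L.map lin).prod, by ring⟩
    rcases hp.dvd_or_dvd hdvd with h1 | h1
    · obtain ⟨q', rfl⟩ := h1
      refine ih q' m c hc hL' ?_
      apply mul_left_cancel₀ (lin_ne ha)
      linear_combination h
    · obtain ⟨m', rfl⟩ := h1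
      obtain ⟨L'', b, hb, h2, h3⟩ := ih q m' c hc hL' (by
        apply mul_left_cancel₀ (lin_ne ha)
        linear_combination h)
      refine ⟨a :: L'', b, hb, ?_, ?_⟩
      · intro x hx
        rcases List.mem_cons.1 hx with h4 | h4
        · rw [h4]
          exact ha
        · exact h2 x h4
      · rw [List.map_cons, List.prod_cons, h3]
        ring

theorem t_FAC : S_FAC := by
  intro d n L q m c hc hL hm h
  obtain ⟨L', b, hb, h1, h2⟩ := fac_list L q m c hc hL h
  have hm0 : m ≠ 0 := by
    rw [h2]
    exact mul_ne_zero (by rwa [Ne, C_eq_zero]) (prod_lin_ne L' h1)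
  have h3 : m.IsHomogeneous L'.length := by
    rw [h2]
    have h4 := (isHomogeneous_C (Fin d) b).mul (prod_lin_hom L')
    rw [zero_add] at h4
    exact h4
  have h4 : L'.length = n := h3.inj_right hm hm0
  subst h4
  refine ⟨fun i => L'.get i, b, hb, fun i => h1 _ (List.get_mem _ _), ?_⟩
  rw [h2]
  congr 1
  rw [← List.prod_ofFn]
  congr 1
  apply List.ext_get
  · simp
  · intro i h5 h6
    simp

end Pool.Agent.Q121.PA
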