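import Pool.Agent.Q15.PA.Stm

/-!
Project PA (helper15), job IND: the linear forms are independent.
-/

set_option autoImplicit false

namespace Pool.Agent.Q121.PA.IND

open Pool.Agent.Q15.PA MeasureTheory Filter Topology

theorem key {X : Type*} [MeasurableSpace X] (μ : Measure X) (f ψ : X → ℝ)
    (hf : ∀ x, 0 < f x) (hψ : Measurable ψ)
    (hint : ∀ n : ℕ, Integrable (fun x => f x * Real.exp (n * ψ x)) μ)
    (h0 : μ {x | ψ x = 0} = 0) (c : ℝ)
    (h : Tendsto (fun n : ℕ => ∫ x, f x * Real.exp (n * ψ x) ∂μ) atTop (𝓝 c)) : c = 0 := by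
  have hA : MeasurableSet {x | 0 < ψ x} := measurableSet_lt measurable_const hψ
  set A : Set X := {x | 0 < ψ x} with hAdef
  have hb : Tendsto (fun n : ℕ => ∫ x in Aᶜ, f x * Real.exp (n * ψ x) ∂μ) atTop (𝓝 0) := by
    have hb' : Tendsto (fun n : ℕ => ∫ x in Aᶜ, f x * Real.exp (n * ψ x) ∂μ) atTop
        (𝓝 (∫ _x in Aᶜ, (0 : ℝ) ∂μ)) := by
      refine tendsto_integral_of_dominated_convergence f ?_ ?_ ?_ ?_
      · intro n
        exact (hint n).aestronglyMeasurable.restrict
      · have := (hint 0).integrableOn (s := Aᶜ)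
        simpa [IntegrableOn] using this
      · intro n
        rw [ae_restrict_iff' hA.compl]
        refine Eventually.of_forall fun x hx => ?_
        have hx' : ψ x ≤ 0 := not_lt.1 hx
        rw [Real.norm_eq_abs, abs_of_nonneg (by have := hf x; positivity)]
        have : Real.exp (n * ψ x) ≤ 1 := by
          rw [Real.exp_le_one_iff]
          exact mul_nonpos_of_nonneg_of_nonpos (Nat.cast_nonneg n) hx'
        have := mul_le_mul_of_nonneg_left this (hf x).le
        simpa using this
      · rw [ae_restrict_iff' hA.compl]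
        have h0' : ∀ᵐ x ∂μ, ψ x ≠ 0 := by
          rw [ae_iff]
          simpa using h0
        filter_upwards [h0'] with x hx0 hx
        have hx' : ψ x < 0 := lt_of_le_of_ne (not_lt.1 hx) hx0
        have h1 : Tendsto (fun n : ℕ => Real.exp (n * ψ x)) atTop (𝓝 0) := by
          apply Real.tendsto_exp_atBot.comp
          exact tendsto_natCast_atTop_atTop.atTop_mul_const_of_neg hx'
        simpa using h1.const_mul (f x)
    simpa using hb'
  have hsplit : ∀ n : ℕ, ∫ x in A, f x * Real.exp (n * ψ x) ∂μ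
      = (∫ x, f x * Real.exp (n * ψ x) ∂μ) - ∫ x in Aᶜ, f x * Real.exp (n * ψ x) ∂μ := by
    intro n
    rw [← integral_add_compl hA (hint n)]
    ring
  have ha : Tendsto (fun n : ℕ => ∫ x in A, f x * Real.exp (n * ψ x) ∂μ) atTop (𝓝 c) := by
    have := h.sub hb
    simp only [sub_zero] at this
    exact this.congr fun n => (hsplit n).symm
  have hd : Tendsto (fun n : ℕ => (∫ x in A, f x * Real.exp ((n + 1 : ℕ) * ψ x) ∂μ)
      - ∫ x in A, f x * Real.exp (n * ψ x) ∂μ) atTop (𝓝 0) := by
    have := ((tendsto_add_atTop_iff_nat 1).2 ha).sub ha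
    simpa using this
  have hge : ∀ n : ℕ, (∫ x in A, f x * (Real.exp (ψ x) - 1) ∂μ)
      ≤ (∫ x in A, f x * Real.exp ((n + 1 : ℕ) * ψ x) ∂μ)
      - ∫ x in A, f x * Real.exp (n * ψ x) ∂μ := by
    intro n
    rw [← integral_sub (hint (n + 1)).integrableOn (hint n).integrableOn]
    refine setIntegral_mono_on ?_ ?_ hA ?_
    · have := ((hint 1).sub (hint 0)).integrableOn (s := A)
      refine this.congr_fun ?_ hA
      intro x _
      simp
      ring
    · exact ((hint (n + 1)).sub (hint n)).integrableOn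
    · intro x hx
      have hx' : 0 < ψ x := hx
      have e1 : Real.exp ((n + 1 : ℕ) * ψ x) = Real.exp (n * ψ x) * Real.exp (ψ x) := by
        rw [← Real.exp_add]
        congr 1
        push_cast
        ring
      rw [e1]
      have h2 : 1 ≤ Real.exp (n * ψ x) := Real.one_le_exp (by positivity)
      have h3 : 0 ≤ Real.exp (ψ x) - 1 := by
        have := Real.one_le_exp hx'.le
        linarith
      have h4 : 0 ≤ f x * (Real.exp (ψ x) - 1) := mul_nonneg (hf x).le h3
      nlinarith
  have hle : (∫ x in A, f x * (Real.exp (ψ x) - 1) ∂μ) ≤ 0 :=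
    ge_of_tendsto' hd hge
  have hAnull : μ A = 0 := by
    by_contra hne
    have hpos : 0 < ∫ x in A, f x * (Real.exp (ψ x) - 1) ∂μ := by
      rw [setIntegral_pos_iff_support_of_nonneg_ae]
      · refine lt_of_lt_of_le (pos_iff_ne_zero.2 hne) (measure_mono ?_)
        intro x hx
        refine ⟨?_, hx⟩
        have hx' : 0 < ψ x := hx
        have : 0 < f x * (Real.exp (ψ x) - 1) := by
          have h1 : 1 < Real.exp (ψ x) := Real.one_lt_exp_iff.2 hx'
          exact mul_pos (hf x) (by linarith)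
        exact this.ne'
      · rw [Filter.EventuallyLE, ae_restrict_iff' hA]
        refine Eventually.of_forall fun x hx => ?_
        have hx' : 0 < ψ x := hx
        have h1 : 1 ≤ Real.exp (ψ x) := Real.one_le_exp hx'.le
        exact mul_nonneg (hf x).le (by linarith)
      · have := ((hint 1).sub (hint 0)).integrableOn (s := A)
        refine this.congr_fun ?_ hA
        intro x _
        simp
        ring
    exact absurd hle (not_le.2 hpos)
  have ha0 : ∀ n : ℕ, ∫ x in A, f x * Real.exp (n * ψ x) ∂μ = 0 := by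
    intro n
    exact setIntegral_measure_zero _ hAnull
  exact tendsto_nhds_unique (ha.congr fun n => ha0 n) tendsto_const_nhds

/-- growth of an exponential sum -/
theorem expsum {ι : Type*} (a l : ι → ℝ) (m : ℕ) : ∀ s : Finset ι, s.card = m →
    (∃ n : ℕ, ∑ i ∈ s, a i * Real.exp (n * l i) ≠ 0) →
    ∃ L c : ℝ, c ≠ 0 ∧
      Tendsto (fun n : ℕ => Real.exp (-(n * L)) * ∑ i ∈ s, a i * Real.exp (n * l i)) atTop (𝓝 c) := by
  classical
  induction m using Nat.strong_induction_on with
  | _ m ih =>
    intro s hs ⟨n₀, hn₀⟩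
    have hne : s.Nonempty := by
      rw [Finset.nonempty_iff_ne_empty]
      rintro rfl
      simp at hn₀
    obtain ⟨i₀, hi₀, hmax⟩ := s.exists_max_image l hne
    set L := l i₀ with hL
    by_cases hc : ∑ i ∈ s.filter (fun i => l i = L), a i = 0
    · -- remove the top exponent
      have hsum : ∀ n : ℕ, ∑ i ∈ s, a i * Real.exp (n * l i)
          = ∑ i ∈ s.filter (fun i => ¬ l i = L), a i * Real.exp (n * l i) := by
        intro n
        rw [← Finset.sum_filter_add_sum_filter_not s (fun i => l i = L)]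
        have : ∑ i ∈ s.filter (fun i => l i = L), a i * Real.exp (n * l i) = 0 := by
          have h1 : ∑ i ∈ s.filter (fun i => l i = L), a i * Real.exp (n * l i)
              = ∑ i ∈ s.filter (fun i => l i = L), a i * Real.exp (n * L) := by
            refine Finset.sum_congr rfl fun i hi => ?_
            rw [(Finset.mem_filter.1 hi).2]
          rw [h1, ← Finset.sum_mul, hc, zero_mul]
        rw [this, zero_add]
      have hlt : (s.filter (fun i => ¬ l i = L)).card < m := by
        rw [← hs]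
        refine Finset.card_lt_card ?_
        refine Finset.ssubset_iff_subset_ne.2 ⟨Finset.filter_subset _ _, ?_⟩
        intro he
        have : i₀ ∈ s.filter (fun i => ¬ l i = L) := by rw [he]; exact hi₀
        exact (Finset.mem_filter.1 this).2 rfl
      obtain ⟨L', c, hc0, ht⟩ := ih _ hlt _ rfl ⟨n₀, by rw [← hsum]; exact hn₀⟩
      refine ⟨L', c, hc0, ?_⟩
      refine ht.congr fun n => ?_
      rw [hsum]
    · refine ⟨L, ∑ i ∈ s.filter (fun i => l i = L), a i, hc, ?_⟩
      have h1 : ∀ n : ℕ, Real.exp (-(n * L)) * ∑ i ∈ s, a i * Real.exp (n * l i)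
          = ∑ i ∈ s, a i * Real.exp (n * (l i - L)) := by
        intro n
        rw [Finset.mul_sum]
        refine Finset.sum_congr rfl fun i _ => ?_
        have : Real.exp (n * (l i - L)) = Real.exp (-(n * L)) * Real.exp (n * l i) := by
          rw [← Real.exp_add]
          congr 1
          ring
        rw [this]
        ring
      have h2 : ∑ i ∈ s.filter (fun i => l i = L), a i = ∑ i ∈ s, (if l i = L then a i else 0) := by
        rw [Finset.sum_filter]
      rw [h2]
      have h3 : Tendsto (fun n : ℕ => ∑ i ∈ s, a i * Real.exp (n * (l i - L))) atTop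
          (𝓝 (∑ i ∈ s, (if l i = L then a i else 0))) := by
        refine tendsto_finsetSum _ fun i hi => ?_
        by_cases hl : l i = L
        · rw [if_pos hl, hl]
          simp
        · rw [if_neg hl]
          have hlt : l i - L < 0 := by
            have := hmax i hi
            have := lt_of_le_of_ne this hl
            linarith
          have h4 : Tendsto (fun n : ℕ => Real.exp (n * (l i - L))) atTop (𝓝 0) := by
            apply Real.tendsto_exp_atBot.comp
            exact tendsto_natCast_atTop_atTop.atTop_mul_const_of_neg hlt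
          simpa using h4.const_mul (a i)
      exact h3.congr fun n => (h1 n).symm

theorem hyper_null {d : ℕ} (ξ₀ : V d) (h : ξ₀ ≠ 0) (l : ℝ) :
    volume {x : V d | ξ₀ ⬝ᵥ x = l} = 0 := by
  by_cases hex : ∃ x₀ : V d, ξ₀ ⬝ᵥ x₀ = l
  · obtain ⟨x₀, hx₀⟩ := hex
    let K : Submodule ℝ (V d) :=
      { carrier := {x | ξ₀ ⬝ᵥ x = 0}
        add_mem' := by
          intro a b ha hb
          have ha' : ξ₀ ⬝ᵥ a = 0 := ha
          have hb' : ξ₀ ⬝ᵥ b = 0 := hb
          show ξ₀ ⬝ᵥ (a + b) = 0
          rw [dotProduct_add, ha', hb', add_zero]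
        zero_mem' := by
          show ξ₀ ⬝ᵥ 0 = 0
          exact dotProduct_zero _
        smul_mem' := by
          intro c a ha
          have ha' : ξ₀ ⬝ᵥ a = 0 := ha
          show ξ₀ ⬝ᵥ (c • a) = 0
          rw [dotProduct_smul, ha', smul_zero] }
    have hK : ∀ x, x ∈ K ↔ ξ₀ ⬝ᵥ x = 0 := fun x => Iff.rfl
    have hKtop : K ≠ ⊤ := by
      intro ht
      have h1 : ξ₀ ∈ K := by rw [ht]; trivial
      rw [hK] at h1
      exact h (dotProduct_self_eq_zero.1 h1)
    have hK0 : volume (K : Set (V d)) = 0 := Measure.addHaar_submodule volume K hKtop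
    have he : {x : V d | ξ₀ ⬝ᵥ x = l} = (fun x => x + (-x₀)) ⁻¹' (K : Set (V d)) := by
      ext x
      show ξ₀ ⬝ᵥ x = l ↔ ξ₀ ⬝ᵥ (x + (-x₀)) = 0
      rw [dotProduct_add, dotProduct_neg, hx₀]
      constructor
      · intro h; linarith
      · intro h; linarith
    rw [he, measure_preimage_add_right, hK0]
  · have : {x : V d | ξ₀ ⬝ᵥ x = l} = ∅ :=
      Set.eq_empty_iff_forall_notMem.2 fun x hx => hex ⟨x, hx⟩
    rw [this]
    simp

theorem E_pos {d : ℕ} (G : Set (V d)) (hG : IsCompact G) (hv : volume G ≠ 0) (ξ : V d) :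
    0 < E G ξ := by
  unfold E
  rw [setIntegral_pos_iff_support_of_nonneg_ae]
  · refine lt_of_lt_of_le (pos_iff_ne_zero.2 hv) (measure_mono ?_)
    intro x hx
    exact ⟨(Real.exp_pos _).ne', hx⟩
  · exact Eventually.of_forall fun x => (Real.exp_pos _).le
  · refine ContinuousOn.integrableOn_compact hG ?_
    refine Continuous.continuousOn ?_
    exact Real.continuous_exp.comp (continuous_const.dotProduct continuous_id)

theorem t_IND : S_IND := by
  intro d G u N hG hv hu hE
  classical
  by_contra hli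
  -- a vector orthogonal to all of the forms
  obtain ⟨ξ₀, hξ₀, hort⟩ : ∃ ξ₀ : V d, ξ₀ ≠ 0 ∧ ∀ i, u i ⬝ᵥ ξ₀ = 0 := by
    have h1 : ¬ IsUnit (Matrix.of u) := by
      intro hun
      exact hli (Matrix.linearIndependent_rows_iff_isUnit.2 hun)
    have h2 : (Matrix.of u).det = 0 := by
      rw [Matrix.isUnit_iff_isUnit_det, isUnit_iff_ne_zero, not_not] at h1
      exact h1
    obtain ⟨v, hv, hv2⟩ := Matrix.exists_mulVec_eq_zero_iff.2 h2
    refine ⟨v, hv, fun i => ?_⟩
    have := congrFun hv2 i
    simpa [Matrix.mulVec] using this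
  -- a vector where the product does not vanish
  obtain ⟨ξ, hξ⟩ : ∃ ξ : V d, ∏ i, u i ⬝ᵥ ξ ≠ 0 := by
    by_contra hno
    push Not at hno
    have h1 : (∏ i, lin (u i)) = 0 := by
      apply MvPolynomial.funext
      intro x
      rw [map_prod, map_zero]
      simp only [eval_lin]
      exact hno x
    obtain ⟨i, _, hi⟩ := Finset.prod_eq_zero_iff.1 h1
    exact lin_ne (hu i) hi
  set c := ∏ i, u i ⬝ᵥ ξ with hc
  have hline : ∀ n : ℕ, c * E G (ξ + (n : ℝ) • ξ₀)
      = ∑ v ∈ N.support, (N v * Real.exp (v ⬝ᵥ ξ)) * Real.exp (n * (v ⬝ᵥ ξ₀)) := by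
    intro n
    have h1 := hE (ξ + (n : ℝ) • ξ₀)
    have h2 : (∏ i, u i ⬝ᵥ (ξ + (n : ℝ) • ξ₀)) = c := by
      rw [hc]
      refine Finset.prod_congr rfl fun i _ => ?_
      rw [dotProduct_add, dotProduct_smul, hort i, smul_zero, add_zero]
    rw [h2] at h1
    rw [h1]
    unfold evc Finsupp.sum
    refine Finset.sum_congr rfl fun v _ => ?_
    show N v * Real.exp (v ⬝ᵥ (ξ + (n : ℝ) • ξ₀)) = _
    rw [dotProduct_add, dotProduct_smul, smul_eq_mul, Real.exp_add]
    ring
  obtain ⟨L, c', hc', ht⟩ := expsum (fun v => N v * Real.exp (v ⬝ᵥ ξ)) (fun v => v ⬝ᵥ ξ₀) _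
    N.support rfl ⟨0, by
      rw [← hline 0]
      exact mul_ne_zero hξ (E_pos G hG hv _).ne'⟩
  have hcont : ∀ n : ℕ, Continuous (fun x : V d => Real.exp (ξ ⬝ᵥ x) * Real.exp (n * (ξ₀ ⬝ᵥ x - L))) := by
    intro n
    refine Continuous.mul ?_ ?_
    · exact Real.continuous_exp.comp (continuous_const.dotProduct continuous_id)
    · refine Real.continuous_exp.comp (continuous_const.mul ?_)
      exact (continuous_const.dotProduct continuous_id).sub continuous_const
  have hval : ∀ n : ℕ, ∫ x in G, Real.exp (ξ ⬝ᵥ x) * Real.exp (n * (ξ₀ ⬝ᵥ x - L))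
      = c⁻¹ * (Real.exp (-(n * L)) *
        ∑ v ∈ N.support, (N v * Real.exp (v ⬝ᵥ ξ)) * Real.exp (n * (v ⬝ᵥ ξ₀))) := by
    intro n
    rw [← hline n]
    unfold E
    have h1 : ∀ x : V d, Real.exp (ξ ⬝ᵥ x) * Real.exp (n * (ξ₀ ⬝ᵥ x - L))
        = Real.exp (-(n * L)) * Real.exp ((ξ + (n : ℝ) • ξ₀) ⬝ᵥ x) := by
      intro x
      rw [← Real.exp_add, ← Real.exp_add, add_dotProduct, smul_dotProduct, smul_eq_mul]
      congr 1
      ring
    simp only [h1]
    rw [integral_const_mul]
    field_simp
  have hfin := key (volume.restrict G) (fun x => Real.exp (ξ ⬝ᵥ x)) (fun x => ξ₀ ⬝ᵥ x - L)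
    (fun x => Real.exp_pos _)
    (((continuous_const.dotProduct continuous_id).sub continuous_const).measurable)
    (fun n => (hcont n).continuousOn.integrableOn_compact hG)
    (by
      have h1 : volume {x : V d | ξ₀ ⬝ᵥ x - L = 0} = 0 := by
        have := hyper_null ξ₀ hξ₀ L
        simpa [sub_eq_zero] using this
      exact le_antisymm ((Measure.restrict_apply_le _ _).trans h1.le) bot_le)
    (c⁻¹ * c') (by
      have := ht.const_mul c⁻¹
      exact this.congr fun n => (hval n).symm)
  exact mul_ne_zero (inv_ne_zero hξ) hc' hfin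

end Pool.Agent.Q121.PA.IND
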