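import Pool.Agent.Q15.PA.Stm
import Pool.Agent.Q121.PA.IND

/-!
Project PA (helper15), job GAP: all coefficients are proportional.
-/

set_option autoImplicit false

namespace Pool.Agent.Q121.PA.GAP

open Pool.Agent.Q15.PA MeasureTheory Filter Topology

/-- gap pairs -/
def GP {d : ℕ} (p : V d →₀ MvPolynomial (Fin d) ℝ) (φ : V d → ℝ) (a b : V d) : Prop :=
  p a ≠ 0 ∧ (∀ v, p v ≠ 0 → φ a ≤ φ v) ∧ (¬ ∃ c : ℝ, p b = c • p a) ∧
    ∀ v, φ v < φ b → ∃ c : ℝ, p v = c • p a

theorem gp_exists {d : ℕ} (p : V d →₀ MvPolynomial (Fin d) ℝ)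
    (hno : ¬ ∃ q : MvPolynomial (Fin d) ℝ, ∀ v, ∃ c : ℝ, p v = c • q) (φ : V d → ℝ) :
    ∃ a b, GP p φ a b := by
  classical
  have hne : p.support.Nonempty := by
    rw [Finset.nonempty_iff_ne_empty]
    intro h0
    apply hno
    refine ⟨0, fun v => ⟨0, ?_⟩⟩
    have : v ∉ p.support := by rw [h0]; simp
    rw [Finsupp.notMem_support_iff.1 this]
    simp
  obtain ⟨a, ha, hmin⟩ := p.support.exists_min_image φ hne
  have ha0 : p a ≠ 0 := Finsupp.mem_support_iff.1 ha
  have hne2 : (p.support.filter (fun v => ¬ ∃ c : ℝ, p v = c • p a)).Nonempty := by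
    by_contra hemp
    apply hno
    refine ⟨p a, fun v => ?_⟩
    by_contra hv
    apply hemp
    refine ⟨v, Finset.mem_filter.2 ⟨?_, hv⟩⟩
    rw [Finsupp.mem_support_iff]
    intro h0
    exact hv ⟨0, by rw [h0, zero_smul]⟩
  obtain ⟨b, hb, hminb⟩ := Finset.exists_min_image _ φ hne2
  refine ⟨a, b, ha0, fun v hv => hmin v (Finsupp.mem_support_iff.2 hv),
    (Finset.mem_filter.1 hb).2, fun v hv => ?_⟩
  by_contra hno2
  have hv' : v ∈ p.support.filter (fun v => ¬ ∃ c : ℝ, p v = c • p a) := by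
    refine Finset.mem_filter.2 ⟨?_, hno2⟩
    rw [Finsupp.mem_support_iff]
    intro h0
    exact hno2 ⟨0, by rw [h0, zero_smul]⟩
  exact absurd hv (not_lt.2 (hminb v hv'))

theorem sum_line {d : ℕ} {ι : Type*} (s : Finset ι) (f : ι → MvPolynomial (Fin d) ℝ)
    (q : MvPolynomial (Fin d) ℝ) (h : ∀ i ∈ s, ∃ c : ℝ, f i = c • q) :
    ∃ c : ℝ, ∑ i ∈ s, f i = c • q := by
  classical
  choose! c hc using h
  refine ⟨∑ i ∈ s, c i, ?_⟩
  rw [Finset.sum_smul]
  exact Finset.sum_congr rfl hc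

theorem gp_step {d : ℕ} (M : Matrix (Fin d) (Fin d) ℝ) (hM : IsUnit M.det) (S : Finset (V d))
    (p : V d →₀ MvPolynomial (Fin d) ℝ)
    (A B : MvPolynomial (Fin d) ℝ →ₗ[ℝ] MvPolynomial (Fin d) ℝ)
    (hA : Function.Injective A) (hB : Function.Injective B)
    (heq : ∀ w, A (∑ s ∈ S, p (w - s)) = B (p (M⁻¹.mulVec w)))
    (φ : V d → ℝ) (hφ : ∀ x y, φ (x - y) = φ x - φ y) (s₀ : V d) (hs₀ : s₀ ∈ S)
    (hmin : ∀ s ∈ S, s ≠ s₀ → φ s₀ < φ s) (a b : V d) (h : GP p φ a b) :
    GP p (fun v => φ (M.mulVec v)) (M⁻¹.mulVec (a + s₀)) (M⁻¹.mulVec (b + s₀)) := by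
  classical
  obtain ⟨h1, h2, h3, h4⟩ := h
  have hφ2 : ∀ x y, φ (x + y) = φ x + φ y := by
    intro x y
    have e := hφ (x + y) y
    rw [add_sub_cancel_right] at e
    linarith
  have hMM : ∀ w : V d, M.mulVec (M⁻¹.mulVec w) = w := by
    intro w
    rw [Matrix.mulVec_mulVec, Matrix.mul_nonsing_inv _ hM, Matrix.one_mulVec]
  have hMM' : ∀ w : V d, M⁻¹.mulVec (M.mulVec w) = w := by
    intro w
    rw [Matrix.mulVec_mulVec, Matrix.nonsing_inv_mul _ hM, Matrix.one_mulVec]
  have hmin' : ∀ s ∈ S, φ s₀ ≤ φ s := by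
    intro s hs
    by_cases he : s = s₀
    · rw [he]
    · exact (hmin s hs he).le
  -- the value at `a + s₀`
  have hqa : ∑ s ∈ S, p ((a + s₀) - s) = p a := by
    rw [Finset.sum_eq_single_of_mem s₀ hs₀]
    · rw [add_sub_cancel_right]
    · intro s hs hne
      by_contra h0
      have e1 := h2 _ h0
      rw [hφ, hφ2] at e1
      have e2 := hmin s hs hne
      linarith
  have hAB : A (p a) = B (p (M⁻¹.mulVec (a + s₀))) := by
    rw [← heq, hqa]
  -- the value at `b + s₀`
  have hqb : ∃ c : ℝ, ∑ s ∈ S, p ((b + s₀) - s) = p b + c • p a := by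
    rw [← Finset.add_sum_erase S _ hs₀, add_sub_cancel_right]
    obtain ⟨c, hc⟩ := sum_line (S.erase s₀) (fun s => p ((b + s₀) - s)) (p a) (by
      intro s hs
      apply h4
      rw [hφ, hφ2]
      have := hmin s (Finset.mem_of_mem_erase hs) (Finset.ne_of_mem_erase hs)
      linarith)
    exact ⟨c, by rw [hc]⟩
  refine ⟨?_, ?_, ?_, ?_⟩
  · intro h0
    rw [h0, map_zero] at hAB
    exact h1 (hA (by rw [hAB, map_zero]))
  · intro v hv
    simp only [hMM]
    have hq : ∑ s ∈ S, p (M.mulVec v - s) ≠ 0 := by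
      intro h0
      have e := heq (M.mulVec v)
      rw [h0, map_zero, hMM'] at e
      exact hv (hB (by rw [← e, map_zero]))
    obtain ⟨s, hs, hne⟩ := Finset.exists_ne_zero_of_sum_ne_zero hq
    have e1 := h2 _ hne
    have e2 := hmin' s hs
    rw [hφ] at e1
    rw [hφ2]
    linarith
  · rintro ⟨c, hc⟩
    obtain ⟨c', hc'⟩ := hqb
    have e1 : A (p b + c' • p a) = A (c • p a) := by
      rw [← hc', heq, hc, map_smul, map_smul, hAB]
    have e2 := hA e1
    apply h3
    refine ⟨c - c', ?_⟩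
    rw [sub_smul, ← e2, add_sub_cancel_right]
  · intro v hv
    simp only [hMM] at hv
    obtain ⟨c, hc⟩ := sum_line S (fun s => p (M.mulVec v - s)) (p a) (by
      intro s hs
      apply h4
      rw [hφ]
      rw [hφ2] at hv
      have := hmin' s hs
      linarith)
    refine ⟨c, hB ?_⟩
    have e := heq (M.mulVec v)
    rw [hMM'] at e
    rw [← e, hc, map_smul, map_smul, hAB]

theorem t_GAP : S_GAP := by
  intro hEX d M S p A B hM hS hA hB heq
  classical
  obtain ⟨hdet, hlim, -⟩ := hEX d M hM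
  by_cases hline : ∃ q : MvPolynomial (Fin d) ℝ, ∀ v, ∃ c : ℝ, p v = c • q
  · obtain ⟨q, hq⟩ := hline
    choose c hc using hq
    refine ⟨q, Finsupp.onFinset p.support (fun v => if p v = 0 then 0 else c v) ?_, ?_⟩
    · intro v hv
      rw [Finsupp.mem_support_iff]
      intro h0
      simp [h0] at hv
    · intro v
      rw [Finsupp.onFinset_apply]
      by_cases h0 : p v = 0
      · rw [if_pos h0, zero_smul, h0]
      · rw [if_neg h0]
        exact hc v
  · exfalso
    -- a generic form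
    have hdetn : ∀ n : ℕ, IsUnit (M ^ n).det := fun n => by
      rw [Matrix.det_pow]
      exact hdet.pow n
    have hinj : ∀ (n : ℕ) (x : V d), (M ^ n).mulVec x = 0 → x = 0 := by
      intro n x hx
      have : (M ^ n)⁻¹.mulVec ((M ^ n).mulVec x) = x := by
        rw [Matrix.mulVec_mulVec, Matrix.nonsing_inv_mul _ (hdetn n), Matrix.one_mulVec]
      rw [← this, hx, Matrix.mulVec_zero]
    obtain ⟨l, hl⟩ : ∃ l : V d, ∀ (n : ℕ), ∀ s ∈ S, ∀ s' ∈ S, s ≠ s' →
        (M ^ n).mulVec (s - s') ⬝ᵥ l ≠ 0 := by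
      by_contra hno
      push Not at hno
      have hcov : (Set.univ : Set (V d)) ⊆ ⋃ n : ℕ, ⋃ s ∈ S, ⋃ s' ∈ S, ⋃ (_ : s ≠ s'),
          {l : V d | (M ^ n).mulVec (s - s') ⬝ᵥ l = 0} := by
        intro l _
        obtain ⟨n, s, hs, s', hs', hne, h0⟩ := hno l
        simp only [Set.mem_iUnion]
        exact ⟨n, s, hs, s', hs', hne, h0⟩
      have hnull : volume (⋃ n : ℕ, ⋃ s ∈ S, ⋃ s' ∈ S, ⋃ (_ : s ≠ s'),
          {l : V d | (M ^ n).mulVec (s - s') ⬝ᵥ l = 0}) = 0 := by
        refine measure_iUnion_null fun n => ?_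
        refine (measure_biUnion_null_iff S.countable_toSet).2 fun s _ => ?_
        refine (measure_biUnion_null_iff S.countable_toSet).2 fun s' _ => ?_
        refine measure_iUnion_null fun hne => ?_
        refine IND.hyper_null _ ?_ 0
        intro h0
        exact hne (sub_eq_zero.1 (hinj n _ h0))
      have huniv : volume (Set.univ : Set (V d)) = 0 := measure_mono_null hcov hnull
      exact (isOpen_univ.measure_ne_zero volume Set.univ_nonempty) huniv
    obtain ⟨a₀, b₀, h0⟩ := gp_exists p hline (fun v => l ⬝ᵥ v)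
    have hiter : ∀ n : ℕ, ∃ a b, GP p (fun v => l ⬝ᵥ (M ^ n).mulVec v) a b ∧
        b - a = (M⁻¹ ^ n).mulVec (b₀ - a₀) := by
      intro n
      induction n with
      | zero =>
        refine ⟨a₀, b₀, ?_, ?_⟩
        · simpa using h0
        · simp
      | succ n ih =>
        obtain ⟨a, b, hab, hsub⟩ := ih
        obtain ⟨s₀, hs₀, hmin⟩ := S.exists_min_image (fun s => l ⬝ᵥ (M ^ n).mulVec s) hS
        have hadd : ∀ x y : V d, l ⬝ᵥ (M ^ n).mulVec (x - y)
            = l ⬝ᵥ (M ^ n).mulVec x - l ⬝ᵥ (M ^ n).mulVec y := by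
          intro x y
          rw [Matrix.mulVec_sub, dotProduct_sub]
        have hstep := gp_step M hdet S p A B hA hB heq (fun v => l ⬝ᵥ (M ^ n).mulVec v) hadd
          s₀ hs₀ (by
            intro s hs hne
            refine lt_of_le_of_ne (hmin s hs) ?_
            intro he
            have e1 := hl n s hs s₀ hs₀ hne
            rw [dotProduct_comm, hadd] at e1
            apply e1
            rw [sub_eq_zero]
            exact he.symm) a b hab
        refine ⟨M⁻¹.mulVec (a + s₀), M⁻¹.mulVec (b + s₀), ?_, ?_⟩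
        · have : (fun v => l ⬝ᵥ (M ^ (n + 1)).mulVec v)
              = (fun v => (fun v => l ⬝ᵥ (M ^ n).mulVec v) (M.mulVec v)) := by
            funext v
            show l ⬝ᵥ (M ^ (n + 1)).mulVec v = l ⬝ᵥ (M ^ n).mulVec (M.mulVec v)
            rw [Matrix.mulVec_mulVec, pow_succ]
          rw [this]
          exact hstep
        · rw [← Matrix.mulVec_sub, add_sub_add_right_eq_sub, hsub, Matrix.mulVec_mulVec, pow_succ']
    -- the differences
    have hfin : (((p.support ×ˢ p.support).image (fun x : V d × V d => x.2 - x.1)).erase 0 :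
        Set (V d)).Finite := Set.toFinite _
    have hclosed : IsClosed (((p.support ×ˢ p.support).image
        (fun x : V d × V d => x.2 - x.1)).erase 0 : Set (V d)) := hfin.isClosed
    have hnhds : ((((p.support ×ˢ p.support).image
        (fun x : V d × V d => x.2 - x.1)).erase 0 : Set (V d)))ᶜ ∈ 𝓝 (0 : V d) := by
      refine hclosed.isOpen_compl.mem_nhds ?_
      simp
    have hev := (hlim (b₀ - a₀)).eventually hnhds
    obtain ⟨n, hn⟩ := hev.exists
    obtain ⟨a, b, hab, hsub⟩ := hiter n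
    apply hn
    rw [← hsub]
    have hab0 : b - a ≠ 0 := by
      intro h0
      have : b = a := sub_eq_zero.1 h0
      exact hab.2.2.1 ⟨1, by rw [this, one_smul]⟩
    have ha : a ∈ p.support := Finsupp.mem_support_iff.2 hab.1
    have hb : b ∈ p.support := by
      rw [Finsupp.mem_support_iff]
      intro h0
      exact hab.2.2.1 ⟨0, by rw [h0, zero_smul]⟩
    rw [Finset.mem_coe, Finset.mem_erase]
    exact ⟨hab0, Finset.mem_image.2 ⟨(a, b), Finset.mem_product.2 ⟨ha, hb⟩, rfl⟩⟩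

end Pool.Agent.Q121.PA.GAP
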