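import Pool.Agent.Q15.PA.Stm

/-!
Project PA (helper15), job LI: exponential functions are linearly independent over the polynomials.
-/

set_option autoImplicit false

namespace Pool.Agent.Q121.PA

open Pool.Agent.Q15.PA Filter Topology

theorem poly_exp (P : Polynomial ℝ) {b : ℝ} (hb : 0 < b) :
    Tendsto (fun t : ℝ => P.eval t * Real.exp (-(b * t))) atTop (𝓝 0) := by
  have h1 := Polynomial.tendsto_div_exp_atTop (P.comp (Polynomial.C b⁻¹ * Polynomial.X))
  have h2 : Tendsto (fun t : ℝ => b * t) atTop atTop := tendsto_id.const_mul_atTop hb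
  have h3 := h1.comp h2
  refine h3.congr (fun t => ?_)
  show Polynomial.eval (b * t) (P.comp (Polynomial.C b⁻¹ * Polynomial.X)) / Real.exp (b * t) = _
  rw [Polynomial.eval_comp, Polynomial.eval_mul, Polynomial.eval_C, Polynomial.eval_X,
    ← mul_assoc, inv_mul_cancel₀ hb.ne', one_mul, Real.exp_neg, div_eq_mul_inv]

theorem one_var {ι : Type} (a : ι → ℝ) (P : ι → Polynomial ℝ) : ∀ (s : Finset ι), Set.InjOn a s →
    (∀ t : ℝ, ∑ i ∈ s, (P i).eval t * Real.exp (a i * t) = 0) → ∀ i ∈ s, P i = 0 := by
  classical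
  intro s
  induction hn : s.card using Nat.strong_induction_on generalizing s with
  | _ n ih =>
    intro hinj h i hi
    obtain ⟨i0, hi0, hmax⟩ := Finset.exists_max_image s a ⟨i, hi⟩
    have hP0 : P i0 = 0 := by
      have h1 : ∀ t : ℝ, (P i0).eval t = - ∑ j ∈ s.erase i0, (P j).eval t *
          Real.exp (-((a i0 - a j) * t)) := by
        intro t
        have h2 := h t
        rw [← Finset.add_sum_erase s _ hi0] at h2
        have h3 : (P i0).eval t * Real.exp (a i0 * t) * Real.exp (-(a i0 * t)) =
            -(∑ j ∈ s.erase i0, (P j).eval t * Real.exp (a j * t)) * Real.exp (-(a i0 * t)) := by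
          rw [eq_neg_of_add_eq_zero_left h2]
        rw [mul_assoc, ← Real.exp_add, add_neg_cancel, Real.exp_zero, mul_one] at h3
        rw [h3, neg_mul, Finset.sum_mul]
        congr 1
        refine Finset.sum_congr rfl (fun j _ => ?_)
        rw [mul_assoc, ← Real.exp_add]
        congr 2
        ring
      have h4 : Tendsto (fun t : ℝ => (P i0).eval t) atTop (𝓝 0) := by
        have h5 : Tendsto (fun t : ℝ => - ∑ j ∈ s.erase i0, (P j).eval t *
            Real.exp (-((a i0 - a j) * t))) atTop (𝓝 (-∑ j ∈ s.erase i0, (0 : ℝ))) := by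
          apply Tendsto.neg
          apply tendsto_finsetSum
          intro j hj
          rw [Finset.mem_erase] at hj
          apply poly_exp
          have h6 : a j ≤ a i0 := hmax j hj.2
          have h7 : a j ≠ a i0 := fun h8 => hj.1 (hinj hj.2 hi0 h8)
          have := lt_of_le_of_ne h6 h7
          linarith
        rw [Finset.sum_const_zero, neg_zero] at h5
        exact h5.congr (fun t => (h1 t).symm)
      have h5 := (Polynomial.tendsto_nhds_iff (P i0)).1 h4
      exact Polynomial.leadingCoeff_eq_zero.1 h5.1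
    by_cases hii : i = i0
    · rw [hii]
      exact hP0
    · refine ih (s.erase i0).card ?_ (s.erase i0) rfl (hinj.mono (Finset.erase_subset _ _)) ?_ i
        (Finset.mem_erase.2 ⟨hii, hi⟩)
      · rw [← hn]
        exact Finset.card_erase_lt_of_mem hi0
      · intro t
        have h2 := h t
        rw [← Finset.add_sum_erase s _ hi0, hP0] at h2
        simpa using h2

/-- the restriction to a line -/
noncomputable def ln {d : ℕ} (η : V d) (q : MvPolynomial (Fin d) ℝ) : Polynomial ℝ :=
  MvPolynomial.aeval (fun i => Polynomial.C (η i) * Polynomial.X) q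

theorem eval_ln {d : ℕ} (η : V d) (q : MvPolynomial (Fin d) ℝ) (t : ℝ) :
    (ln η q).eval t = MvPolynomial.eval (t • η) q := by
  unfold ln
  induction q using MvPolynomial.induction_on with
  | C a => simp
  | add p q hp hq => rw [map_add, Polynomial.eval_add, hp, hq, map_add]
  | mul_X p i hp =>
    rw [map_mul, Polynomial.eval_mul, hp, map_mul, MvPolynomial.aeval_X, Polynomial.eval_mul,
      Polynomial.eval_C, Polynomial.eval_X, MvPolynomial.eval_X, Pi.smul_apply, smul_eq_mul,
      mul_comm t]

theorem t_LI : S_LI := by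
  classical
  intro d p h
  by_contra hne
  obtain ⟨v₀, hv₀⟩ := Finsupp.ne_iff.1 hne
  have hv₀' : p v₀ ≠ 0 := hv₀
  set Q : MvPolynomial (Fin d) ℝ := p v₀ * ∏ x ∈ p.support.offDiag, lin (x.1 - x.2) with hQ
  have hQ0 : Q ≠ 0 := by
    rw [hQ]
    apply mul_ne_zero hv₀'
    rw [Finset.prod_ne_zero_iff]
    intro x hx
    rw [Finset.mem_offDiag] at hx
    exact lin_ne (sub_ne_zero.2 hx.2.2)
  obtain ⟨η, hη⟩ : ∃ η : V d, MvPolynomial.eval η Q ≠ 0 := by
    by_contra hcon
    push Not at hcon
    exact hQ0 (MvPolynomial.funext (fun x => by rw [hcon x, map_zero]))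
  rw [hQ, map_mul, map_prod] at hη
  have hη1 := left_ne_zero_of_mul hη
  have hη2 := right_ne_zero_of_mul hη
  rw [Finset.prod_ne_zero_iff] at hη2
  have hinj : Set.InjOn (fun v : V d => v ⬝ᵥ η) p.support := by
    intro v hv v' hv' hvv
    by_contra hne'
    have h1 := hη2 (v, v') (Finset.mem_offDiag.2 ⟨hv, hv', hne'⟩)
    rw [eval_lin, sub_dotProduct] at h1
    exact h1 (sub_eq_zero.2 hvv)
  have h1 := one_var (fun v : V d => v ⬝ᵥ η) (fun v => ln η (p v)) p.support hinj (by
    intro t
    have h2 := h (t • η)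
    unfold ev Finsupp.sum at h2
    rw [← h2]
    refine Finset.sum_congr rfl (fun v _ => ?_)
    show (ln η (p v)).eval t * Real.exp (v ⬝ᵥ η * t) =
      MvPolynomial.eval (t • η) (p v) * Real.exp (v ⬝ᵥ (t • η))
    rw [eval_ln, dotProduct_smul, smul_eq_mul, mul_comm t]) v₀ (Finsupp.mem_support_iff.2 hv₀')
  have h2 : (ln η (p v₀)).eval 1 = 0 := by
    have h3 : ln η (p v₀) = 0 := h1
    rw [h3, Polynomial.eval_zero]
  rw [eval_ln, one_smul] at h2
  exact hη1 h2

end Pool.Agent.Q121.PA
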