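import Pool.Agent.Q15.PA.Stm

/-!
Project PA (helper15), job POLY: the transform of a finite union of polytopes.
-/

set_option autoImplicit false

namespace Pool.Agent.Q121.PA.POLY

open Pool.Agent.Q15.PA MeasureTheory

theorem rat_sum (hCL : S_CL) (d : ℕ) {ι : Type} (s : Finset ι) (F : ι → V d → ℝ)
    (h : ∀ i ∈ s, Rat d d (F i)) : Rat d d (fun ξ => ∑ i ∈ s, F i ξ) := by
  classical
  induction s using Finset.induction_on with
  | empty =>
    simp only [Finset.sum_empty]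
    exact (hCL d d).2.1 le_rfl
  | insert a s ha ih =>
    have h1 := (hCL d d).2.2.1 _ _ (h a (Finset.mem_insert_self _ _))
      (ih (fun i hi => h i (Finset.mem_insert_of_mem hi)))
    have h2 : (fun ξ : V d => ∑ i ∈ insert a s, F i ξ) = fun ξ => F a ξ + ∑ i ∈ s, F i ξ := by
      funext ξ
      rw [Finset.sum_insert ha]
    rw [h2]
    exact h1

theorem closed_poly {d : ℕ} (cs : Finset (V d × ℝ)) : IsClosed {x : V d | ∀ c ∈ cs, c.1 ⬝ᵥ x ≤ c.2} := by
  have h1 : {x : V d | ∀ c ∈ cs, c.1 ⬝ᵥ x ≤ c.2} = ⋂ c ∈ cs, {x : V d | c.1 ⬝ᵥ x ≤ c.2} := by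
    ext x
    simp
  rw [h1]
  apply isClosed_biInter
  intro c _
  apply isClosed_le _ continuous_const
  unfold dotProduct
  fun_prop

theorem compact_poly {d : ℕ} {P : Set (V d)} (h : IsPolytope P) : IsCompact P := by
  obtain ⟨h1, _, cs, h3⟩ := h
  have h4 : IsClosed P := by
    rw [h3]
    exact closed_poly cs
  exact Metric.isCompact_of_isClosed_isBounded h4 h1

theorem poly_box {d : ℕ} {P : Set (V d)} (h : IsPolytope P) :
    ∃ (R : ℝ) (cs : List (Con d)), (∀ x ∈ P, ∀ i, |x i| ≤ R) ∧ ∀ x, x ∈ P ↔ ∀ c ∈ cs, c.holds x := by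
  obtain ⟨h1, _, cs, h3⟩ := h
  obtain ⟨R, hR⟩ := h1.exists_norm_le
  refine ⟨R, cs.toList.map (fun c => ⟨c.1, c.2, false⟩), ?_, ?_⟩
  · intro x hx i
    have h4 := norm_le_pi_norm x i
    rw [Real.norm_eq_abs] at h4
    exact h4.trans (hR x hx)
  · intro x
    rw [h3]
    constructor
    · intro hx c hc
      obtain ⟨c', hc', rfl⟩ := List.mem_map.1 hc
      have := hx c' (Finset.mem_toList.1 hc')
      simpa [Con.holds] using this
    · intro hx c hc
      have := hx ⟨c.1, c.2, false⟩ (List.mem_map.2 ⟨c, Finset.mem_toList.2 hc, rfl⟩)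
      simpa [Con.holds] using this

theorem t_POLY : S_POLY := by
  classical
  intro hCL hRAT hFUB d G hG
  obtain ⟨F, hF, rfl⟩ := hG
  have hE : E (⋃ P ∈ F, P) = fun ξ => ∑ u ∈ F.powerset with u.Nonempty, (-1) ^ (u.card + 1) *
      ∫ x in ⋂ P ∈ u, P, Real.exp (ξ ⬝ᵥ x) := by
    funext ξ
    unfold E
    rw [integral_biUnion_eq_sum_powerset (s := fun P : Set (V d) => P)]
    · refine Finset.sum_congr rfl (fun u _ => ?_)
      rw [smul_eq_mul]
    · intro P hP
      exact (compact_poly (hF P hP)).measurableSet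
    · intro P hP
      apply ContinuousOn.integrableOn_compact (compact_poly (hF P hP))
      apply Continuous.continuousOn
      unfold dotProduct
      fun_prop
  rw [hE]
  apply rat_sum hCL
  intro u hu
  rw [Finset.mem_filter, Finset.mem_powerset] at hu
  obtain ⟨hu1, P0, hP0⟩ := hu
  choose! R cs hR hcs using fun (P : Set (V d)) (hP : IsPolytope P) => poly_box hP
  have hcell : (⋂ P ∈ u, P) = Cell d (R P0) (u.toList.flatMap cs) := by
    ext x
    simp only [Set.mem_iInter, Cell, Set.mem_setOf_eq, List.mem_flatMap, Finset.mem_toList]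
    constructor
    · intro hx
      refine ⟨hR P0 (hF P0 (hu1 hP0)) x (hx P0 hP0), ?_⟩
      rintro c ⟨P, hP, hc⟩
      exact (hcs P (hF P (hu1 hP)) x).1 (hx P hP) c hc
    · rintro ⟨_, hx⟩ P hP
      exact (hcs P (hF P (hu1 hP)) x).2 (fun c hc => hx c ⟨P, hP, hc⟩)
  rw [hcell]
  have h1 := hRAT hCL hFUB d d (R P0) (u.toList.flatMap cs) LinearMap.id Function.surjective_id
  have h2 := (hCL d d).2.2.2.1 _ ((-1) ^ (u.card + 1)) 0 h1
  have h3 : (fun ξ : V d => (-1 : ℝ) ^ (u.card + 1) *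
      ∫ x in Cell d (R P0) (u.toList.flatMap cs), Real.exp (ξ ⬝ᵥ x)) = fun ξ =>
      (-1 : ℝ) ^ (u.card + 1) * Real.exp ((0 : V d) ⬝ᵥ ξ) *
        ∫ x in Cell d (R P0) (u.toList.flatMap cs), Real.exp ((LinearMap.id : V d →ₗ[ℝ] V d) ξ ⬝ᵥ x) := by
    funext ξ
    rw [zero_dotProduct, Real.exp_zero, mul_one]
    rfl
  rw [h3]
  exact h2

end Pool.Agent.Q121.PA.POLY
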