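import Pool.Agent.Q15.PA.Stm

/-!
Project PA (helper15), job RAT: the transform of a cell.
-/

set_option autoImplicit false

namespace Pool.Agent.Q121.PA

open Pool.Agent.Q15.PA MeasureTheory

theorem cell_sub (k : ℕ) (R : ℝ) (cs : List (Con k)) :
    Cell k R cs ⊆ Set.Icc (fun _ => -R) (fun _ => R) := by
  rintro x ⟨hx, _⟩
  exact ⟨fun i => (abs_le.1 (hx i)).1, fun i => (abs_le.1 (hx i)).2⟩

theorem int_cell (k : ℕ) (R : ℝ) (cs : List (Con k)) (l : V k) :
    IntegrableOn (fun y : V k => Real.exp (l ⬝ᵥ y)) (Cell k R cs) := by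
  have h1 : IntegrableOn (fun y : V k => Real.exp (l ⬝ᵥ y)) (Set.Icc (fun _ => -R) (fun _ => R)) := by
    apply ContinuousOn.integrableOn_compact isCompact_Icc
    apply Continuous.continuousOn
    unfold dotProduct
    fun_prop
  exact h1.mono_set (cell_sub k R cs)

theorem t_RAT : S_RAT := by
  intro hCL hFUB n k
  induction k with
  | zero =>
    intro R cs Λ _
    have h1 := (hCL n 0).2.2.2.1 (fun _ => 1) (∫ x in Cell 0 R cs, (1 : ℝ)) 0 (hCL n 0).1
    have h2 : (fun ξ : V n => ∫ x in Cell 0 R cs, Real.exp (Λ ξ ⬝ᵥ x)) =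
        fun ξ => (∫ x in Cell 0 R cs, (1 : ℝ)) * Real.exp ((0 : V n) ⬝ᵥ ξ) * 1 := by
      funext ξ
      rw [zero_dotProduct, Real.exp_zero, mul_one, mul_one]
      congr 1
      funext x
      rw [dotProduct, Finset.univ_eq_empty, Finset.sum_empty, Real.exp_zero]
    rw [h2]
    exact h1
  | succ k ih =>
    intro R cs Λ hΛ
    let η : V n →ₗ[ℝ] ℝ := (LinearMap.proj (0 : Fin (k + 1))).comp Λ
    let l : V n →ₗ[ℝ] V k := LinearMap.pi (fun i => (LinearMap.proj i.succ).comp Λ)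
    have hcons : ∀ ξ, (Fin.cons (η ξ) (l ξ) : V (k + 1)) = Λ ξ := by
      intro ξ
      funext i
      refine Fin.cases ?_ (fun j => ?_) i
      · rfl
      · rfl
    let a : V n := fun i => η (fun j => if i = j then 1 else 0)
    have ha : ∀ ξ, η ξ = a ⬝ᵥ ξ := by
      intro ξ
      rw [LinearMap.pi_apply_eq_sum_univ η ξ]
      unfold dotProduct
      refine Finset.sum_congr rfl (fun i _ => ?_)
      rw [smul_eq_mul, mul_comm]
    have ha0 : a ≠ 0 := by
      intro h0
      obtain ⟨ξ, hξ⟩ := hΛ (fun _ => 1)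
      have h1 : η ξ = 1 := by
        show Λ ξ 0 = 1
        rw [hξ]
      rw [ha, h0, zero_dotProduct] at h1
      exact zero_ne_one h1
    have hkn : k ≤ n := by
      have h1 := LinearMap.finrank_le_finrank_of_surjective (f := Λ) hΛ
      rw [Module.finrank_fin_fun, Module.finrank_fin_fun] at h1
      omega
    refine (hCL n k).2.2.2.2 _ a ha0 ?_
    obtain ⟨Q, hQ⟩ := hFUB k R cs
    have h1 : (fun ξ : V n => (a ⬝ᵥ ξ) * ∫ x in Cell (k + 1) R cs, Real.exp (Λ ξ ⬝ᵥ x)) =
        fun ξ => (Q.map fun q => ∫ y in Cell k R q.1, Real.exp (l ξ ⬝ᵥ y) *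
          (Real.exp (η ξ * (q.2.1.1 ⬝ᵥ y + q.2.1.2)) -
            Real.exp (η ξ * (q.2.2.1 ⬝ᵥ y + q.2.2.2)))).sum := by
      funext ξ
      rw [← hQ (l ξ) (η ξ), hcons ξ, ha ξ]
    rw [h1]
    -- one exponential
    have hone : ∀ (cs' : List (Con k)) (g : V k) (g₀ : ℝ) (c : ℝ), Rat n k (fun ξ =>
        c * ∫ y in Cell k R cs', Real.exp (l ξ ⬝ᵥ y) * Real.exp (η ξ * (g ⬝ᵥ y + g₀))) := by
      intro cs' g g₀ c
      have hsur : Function.Surjective (l + η.smulRight g) := by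
        intro y
        obtain ⟨ξ, hξ⟩ := hΛ (Fin.cons 0 y)
        refine ⟨ξ, ?_⟩
        have e1 : η ξ = 0 := by
          show Λ ξ 0 = 0
          rw [hξ]
          rfl
        have e2 : l ξ = y := by
          funext i
          show Λ ξ i.succ = y i
          rw [hξ]
          rfl
        rw [LinearMap.add_apply, LinearMap.smulRight_apply, e1, e2, zero_smul, add_zero]
      have h2 := ih R cs' (l + η.smulRight g) hsur
      have h3 := (hCL n k).2.2.2.1 _ c (g₀ • a) h2
      have h4 : (fun ξ : V n => c * ∫ y in Cell k R cs', Real.exp (l ξ ⬝ᵥ y) *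
          Real.exp (η ξ * (g ⬝ᵥ y + g₀))) = fun ξ => c * Real.exp ((g₀ • a) ⬝ᵥ ξ) *
            ∫ y in Cell k R cs', Real.exp ((l + η.smulRight g) ξ ⬝ᵥ y) := by
        funext ξ
        rw [mul_assoc, ← integral_const_mul (Real.exp ((g₀ • a) ⬝ᵥ ξ))]
        congr 2
        funext y
        rw [← Real.exp_add, ← Real.exp_add, smul_dotProduct, ← ha ξ, LinearMap.add_apply,
          LinearMap.smulRight_apply, add_dotProduct, smul_dotProduct]
        congr 1
        simp only [smul_eq_mul]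
        ring
      rw [h4]
      exact h3
    -- integrability
    have hint : ∀ (cs' : List (Con k)) (g : V k) (g₀ : ℝ) (ξ : V n), IntegrableOn
        (fun y => Real.exp (l ξ ⬝ᵥ y) * Real.exp (η ξ * (g ⬝ᵥ y + g₀))) (Cell k R cs') := by
      intro cs' g g₀ ξ
      have h2 := (int_cell k R cs' (l ξ + η ξ • g)).const_mul (Real.exp (η ξ * g₀))
      refine h2.congr (Filter.Eventually.of_forall (fun y => ?_))
      show Real.exp (η ξ * g₀) * Real.exp ((l ξ + η ξ • g) ⬝ᵥ y) =
        Real.exp (l ξ ⬝ᵥ y) * Real.exp (η ξ * (g ⬝ᵥ y + g₀))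
      rw [← Real.exp_add, ← Real.exp_add, add_dotProduct, smul_dotProduct]
      congr 1
      simp only [smul_eq_mul]
      ring
    clear h1 hQ
    induction Q with
    | nil =>
      simp only [List.map_nil, List.sum_nil]
      exact (hCL n k).2.1 hkn
    | cons q Q ihQ =>
      simp only [List.map_cons, List.sum_cons]
      refine (hCL n k).2.2.1 _ _ ?_ ihQ
      have h2 := (hCL n k).2.2.1 _ _ (hone q.1 q.2.1.1 q.2.1.2 1) (hone q.1 q.2.2.1 q.2.2.2 (-1))
      have h3 : (fun ξ : V n => ∫ y in Cell k R q.1, Real.exp (l ξ ⬝ᵥ y) *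
          (Real.exp (η ξ * (q.2.1.1 ⬝ᵥ y + q.2.1.2)) -
            Real.exp (η ξ * (q.2.2.1 ⬝ᵥ y + q.2.2.2)))) = fun ξ =>
          (1 * ∫ y in Cell k R q.1, Real.exp (l ξ ⬝ᵥ y) *
            Real.exp (η ξ * (q.2.1.1 ⬝ᵥ y + q.2.1.2))) +
          (-1) * ∫ y in Cell k R q.1, Real.exp (l ξ ⬝ᵥ y) *
            Real.exp (η ξ * (q.2.2.1 ⬝ᵥ y + q.2.2.2)) := by
        funext ξ
        rw [one_mul, neg_one_mul, ← sub_eq_add_neg, ← integral_sub (hint _ _ _ _) (hint _ _ _ _)]
        congr 1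
        funext y
        rw [mul_sub]
      rw [h3]
      exact h2

end Pool.Agent.Q121.PA
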